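import Mathlib
import Pool.Agent.E8helper65.RT.Defs

/-!
# Étale motivic cohomology in the weight of the dimension: definitions
-/

set_option autoImplicit false

namespace Pool.Agent.E8helper65.WD

open Polynomial Pool.Agent.Y156.L Pool.Agent.Y1.CT Pool.Agent.E8helper65.RT

/-- `G i = H^i(X_et, ℤ(d))` and `W i = H^i(X, ℚ(d))` for a connected smooth projective scheme `X` of
dimension `d` over a finite field: by the exact sequence of `ℤ(d) → ℚ(d) → ℚ/ℤ(d)` and the finiteness
of `H^j(X_et, ℚ/ℤ(d))` for `j < 2 d`, the kernel and the cokernel of `G i → W i` are finite for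
`i < 2 d`; and `G (2 d)` is finitely generated (class field theory of Kato and Saito). -/
structure IsWeightDim (d : ℤ) (G : ℤ → Type) [∀ i, AddCommGroup (G i)] (W : ℤ → Type)
    [∀ i, AddCommGroup (W i)] : Prop where
  top : AddGroup.FG (G (2 * d))
  low : ∀ i : ℤ, i < 2 * d → ∃ φ : G i →+ W i, Finite φ.ker ∧ Finite (W i ⧸ φ.range)

/-- The conclusion of Q1 for a scheme `X` of dimension `d` with the groups `G i = H^i(X_et, ℤ(d))`: the
group `H^i(X_et, ℤ(d))` is finitely generated for every integer `i ≤ 2 d`. -/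
def FinitelyGenerated (d : ℤ) (G : ℤ → Type) [∀ i, AddCommGroup (G i)] : Prop :=
  ∀ i : ℤ, i ≤ 2 * d → AddGroup.FG (G i)

section

variable {F : Type} [Field F] {A : AbelianData F}

/-- `W i = H^i(ℙ^(dim A) × Z, ℚ(j))`: the projective bundle formula
`H^i(ℙ^(dim A) × Z, ℚ(j)) = ⨁ H^(i - 2 k)(Z, ℚ(j - k))`, `0 ≤ k ≤ dim A`. -/
def IsProjectiveBundle (T : RelData A) (j : ℤ) (W : ℤ → Type) [∀ i, AddCommGroup (W i)]
    [∀ i, Module ℚ (W i)] : Prop :=
  ∀ i : ℤ, Nonempty (W i ≃ₗ[ℚ] ((k : Fin (A.dim + 1)) → T.grN (i - 2 * (k : ℤ)) (j - (k : ℤ))))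

end

/-- `WeightTimes R q f`: for every abelian variety `A` as in `IsAbelian`, all `T` (rational motivic
cohomology) relative to any connected smooth projective scheme `Z` of dimension `e`, with the formal
properties, such that Frobenius acts on `H^i(A × Z, ℚ(j))` as multiplication by the `j`-th power of
the number of elements of the ground field, and such that the Frobenius endomorphism of `Z` satisfies
polynomials with roots in `R`, the groups `G i = H^i((A × Z)_et, ℤ(d))`, `d = dim A + e`, and the groups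
`G' i = H^i((ℙ^(dim A) × Z)_et, ℤ(d))`: **Q1 holds for `A × Z` if and only if it holds for
`ℙ^(dim A) × Z`**, and if and only if the groups `H^i(Z, ℚ(n))` with `i < 2 n` and
`e ≤ n ≤ e + dim A` vanish. -/
def WeightTimes (R : ℂ → Prop) (q : ℕ) {I : Type} (f : I → ℤ[X]) : Prop :=
  ∀ (F : Type) [Field F] [CharZero F] (A : AbelianData F) (s : ℕ), IsAbelian A q s f →
    ∀ T : RelData A, IsRel (q ^ s) T → T.IsPure (q ^ s) → FrobeniusIn (q ^ s) T R →
      ∀ (e : ℕ) (G : ℤ → Type) [∀ i, AddCommGroup (G i)] (G' : ℤ → Type)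
        [∀ i, AddCommGroup (G' i)] (W' : ℤ → Type) [∀ i, AddCommGroup (W' i)]
        [∀ i, Module ℚ (W' i)],
        IsWeightDim (A.dim + e) G (fun i => T.grM i (A.dim + e)) →
        IsProjectiveBundle T (A.dim + e) W' → IsWeightDim (A.dim + e) G' W' →
          (FinitelyGenerated (A.dim + e) G ↔ FinitelyGenerated (A.dim + e) G') ∧
          (FinitelyGenerated (A.dim + e) G ↔
            ∀ i n : ℤ, i < 2 * n → e ≤ n → n ≤ e + A.dim → T.grN i n = ⊥)

end Pool.Agent.E8helper65.WD
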