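import Mathlib
import Pool.Agent.E8helper65.WD.Defs
import Pool.Agent.E8helper65.RT.Pn

/-!
# Étale motivic cohomology in the weight of the dimension: the proofs
-/

set_option autoImplicit false

namespace Pool.Agent.E8helper65.WD

open Module Polynomial Pool.Agent.Y156.L Pool.Agent.Y1.CT Pool.Agent.E8helper65.RT

/-- A finitely generated rational vector space is zero. -/
theorem subsingleton_of_fg (W : Type) [AddCommGroup W] [Module ℚ W] (h : AddGroup.FG W) :
    Subsingleton W := by
  have h1 : Module.Finite ℤ W := Module.Finite.iff_addGroup_fg.2 h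
  have h2 : (⊤ : Submodule ℤ W) ≤ (Ideal.span {(2 : ℤ)}) • (⊤ : Submodule ℤ W) := by
    intro w _
    have h3 : w = (2 : ℤ) • ((2 : ℚ)⁻¹ • w) := by
      rw [← Int.cast_smul_eq_zsmul ℚ, smul_smul]
      norm_num
    rw [h3]
    exact Submodule.smul_mem_smul (Ideal.subset_span (Set.mem_singleton _)) Submodule.mem_top
  obtain ⟨r, hr, hr2⟩ := Submodule.exists_sub_one_mem_and_smul_eq_zero_of_fg_of_le_smul
    (Ideal.span {(2 : ℤ)}) (⊤ : Submodule ℤ W) h1.fg_top h2
  have hr0 : r ≠ 0 := by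
    rintro rfl
    rw [Ideal.mem_span_singleton] at hr
    omega
  refine ⟨fun a b => ?_⟩
  have h4 : ∀ w : W, w = 0 := by
    intro w
    have h5 := hr2 w Submodule.mem_top
    rw [← Int.cast_smul_eq_zsmul ℚ] at h5
    exact (smul_eq_zero.1 h5).resolve_left (by exact_mod_cast hr0)
  rw [h4 a, h4 b]

theorem fg_iff {d : ℤ} {G : ℤ → Type} [∀ i, AddCommGroup (G i)] {W : ℤ → Type}
    [∀ i, AddCommGroup (W i)] [∀ i, Module ℚ (W i)] (h : IsWeightDim d G W) :
    FinitelyGenerated d G ↔ ∀ i : ℤ, i < 2 * d → Subsingleton (W i) := by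
  constructor
  · intro h1 i hi
    obtain ⟨φ, -, h3⟩ := h.low i hi
    have h4 : AddGroup.FG (G i) := h1 i hi.le
    apply subsingleton_of_fg
    have h5 : AddGroup.FG φ.range := by
      have := AddGroup.fg_range φ
      exact this
    have h6 : Module.Finite ℤ φ.range.toIntSubmodule := Module.Finite.iff_addGroup_fg.2 h5
    have h7 : Module.Finite ℤ (W i ⧸ φ.range.toIntSubmodule) := by
      have : Finite (W i ⧸ φ.range.toIntSubmodule) := h3
      exact Module.Finite.of_finite
    have h8 : Module.Finite ℤ (W i) := Module.Finite.of_submodule_quotient φ.range.toIntSubmodule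
    exact Module.Finite.iff_addGroup_fg.1 h8
  · intro h1 i hi
    rcases lt_or_eq_of_le hi with h2 | rfl
    · obtain ⟨φ, h3, -⟩ := h.low i h2
      have h4 := h1 i h2
      have h5 : Finite (G i) := by
        refine Finite.of_injective (fun x => (⟨x, Subsingleton.elim _ _⟩ : φ.ker)) ?_
        intro x y hxy
        exact congrArg Subtype.val hxy
      exact AddGroup.fg_of_finite
    · exact h.top

theorem subsingleton_iff {V : Type} [AddCommGroup V] [Module ℚ V] (W : Submodule ℚ V) :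
    Subsingleton W ↔ W = ⊥ :=
  Submodule.subsingleton_iff_eq_bot

variable {I : Type} {q : ℕ} (hq : 1 < q) {f : I → ℤ[X]} {R : ℂ → Prop} (hR : NoRel f q R)

include hq hR in
theorem weightTimes (hR0 : ¬ R 0) : WeightTimes R q f := by
  intro F _ _ A s hA T hT hpure hrank e G _ G' _ W' _ _ hG hP hG'
  obtain ⟨J, hJ, c, D, hF, h⟩ := parshinTimes hq hR hR0 F A s hA
  obtain ⟨-, h2⟩ := h T hT hpure hrank
  have key : (∀ i : ℤ, i < 2 * (A.dim + e) → T.grM i (A.dim + e) = ⊥) ↔
      ∀ i n : ℤ, i < 2 * n → e ≤ n → n ≤ e + A.dim → T.grN i n = ⊥ := by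
    constructor
    · intro h3 i n hi h4 h5
      obtain ⟨k, hk⟩ : ∃ k : ℕ, (k : ℤ) = e + A.dim - n := ⟨(e + A.dim - n).toNat, by omega⟩
      have h6 := (h2 (i + 2 * k) (A.dim + e)).1 (h3 _ (by omega)) k (by omega)
      rwa [add_sub_cancel_right, show (A.dim : ℤ) + e - k = n by omega] at h6
    · intro h3 i hi
      rw [h2]
      intro k hk
      exact h3 _ _ (by omega) (by omega) (by omega)
  have key' : (∀ i : ℤ, i < 2 * (A.dim + e) → Subsingleton (W' i)) ↔
      ∀ i n : ℤ, i < 2 * n → e ≤ n → n ≤ e + A.dim → T.grN i n = ⊥ := by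
    constructor
    · intro h3 i n hi h4 h5
      obtain ⟨k, hk⟩ : ∃ k : ℕ, (k : ℤ) = e + A.dim - n := ⟨(e + A.dim - n).toNat, by omega⟩
      have hkA : k < A.dim + 1 := by omega
      obtain ⟨φ⟩ := hP (i + 2 * k)
      have h6 := h3 (i + 2 * k) (by omega)
      rw [← subsingleton_iff]
      refine ⟨fun a b => ?_⟩
      have h7 : Subsingleton
          ((l : Fin (A.dim + 1)) → T.grN (i + 2 * k - 2 * (l : ℤ)) (A.dim + e - (l : ℤ))) :=
        φ.symm.injective.subsingleton
      have h8 : Subsingleton (T.grN (i + 2 * k - 2 * ((⟨k, hkA⟩ : Fin (A.dim + 1)) : ℤ))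
          (A.dim + e - ((⟨k, hkA⟩ : Fin (A.dim + 1)) : ℤ))) := by
        refine ⟨fun x y => ?_⟩
        classical
        have h9 := congrFun (h7.elim (Pi.single ⟨k, hkA⟩ x) (Pi.single ⟨k, hkA⟩ y)) ⟨k, hkA⟩
        rwa [Pi.single_eq_same, Pi.single_eq_same] at h9
      rw [show i + 2 * (k : ℤ) - 2 * ((⟨k, hkA⟩ : Fin (A.dim + 1)) : ℤ) = i from
          add_sub_cancel_right _ _,
        show (A.dim : ℤ) + e - ((⟨k, hkA⟩ : Fin (A.dim + 1)) : ℤ) = n by
          change (A.dim : ℤ) + e - (k : ℤ) = n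
          omega] at h8
      exact h8.elim a b
    · intro h3 i hi
      obtain ⟨φ⟩ := hP i
      have h4 : ∀ l : Fin (A.dim + 1),
          Subsingleton (T.grN (i - 2 * (l : ℤ)) (A.dim + e - (l : ℤ))) := by
        intro l
        have h5 := l.2
        rw [subsingleton_iff]
        exact h3 _ _ (by omega) (by omega) (by omega)
      exact φ.injective.subsingleton
  have h3 := fg_iff hG
  have h4 := fg_iff hG'
  rw [h3, h4, key']
  have h5 : (∀ i : ℤ, i < 2 * (A.dim + e) → Subsingleton (T.grM i (A.dim + e))) ↔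
      ∀ i : ℤ, i < 2 * (A.dim + e) → T.grM i (A.dim + e) = ⊥ :=
    forall_congr' fun i => forall_congr' fun _ => subsingleton_iff _
  rw [h5, key]
  exact ⟨Iff.rfl, Iff.rfl⟩

end Pool.Agent.E8helper65.WD
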